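import Pool.Agent.H14.FRU.Stmts
import Pool.Agent.H46.CUR.FIN
import Pool.Agent.H78.CUR.NU
import Pool.Agent.H97.MA.CTR

/-!
Module PLN: the plain ladder principle from the structure `K4`.
-/

set_option linter.unusedVariables false
set_option synthInstance.maxSize 100000

namespace SW.FU

section
variable {M : Type} [SetStr M] [ZF M]

theorem pln_op {z a b : M} : _root_.FRU.IsOP (fun x y : M => E x y) z a b ↔ z = opair a b :=
  isOP_iff

theorem pln_pi {a b R : M} : _root_.FRU.PairIn (fun x y : M => E x y) a b R ↔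
    E (opair a b) R := pairIn_iff

theorem pln_om : _root_.FRU.IsOmega (fun x y : M => E x y) (om : M) :=
  ctr_omega.2 rfl

theorem pln_lv {h d a n k F : M} :
    _root_.FRU.LadderVal (fun x y : M => E x y) h d a n k F ↔ Tv h d a n k F := by
  unfold _root_.FRU.LadderVal Tv
  constructor
  · rintro ⟨x, y, z, hx, hy, hz, hp⟩
    rw [pln_op] at hx hy hz
    rw [pln_pi] at hp
    rw [hz, hy, hx] at hp
    exact hp
  · intro hp
    exact ⟨_, _, _, pln_op.2 rfl, pln_op.2 rfl, pln_op.2 rfl, pln_pi.2 hp⟩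

theorem pln_fin {s : M} (hs : Fnt s) : _root_.FRU.IsFinite (fun x y : M => E x y) s := by
  obtain ⟨w, n, f, hw, hn, h1, h2, h3, h4⟩ := (CUR.cur_fin CUR.cur_nu M s).2 hs
  have hw' : w = om := ((CUR.cur_nu M).2.2.2.2 w).1 hw
  subst hw'
  refine ⟨om, n, f, pln_om, hn, fun y hy => ?_, h3, fun y y' k _ _ h h' => h4 y y' k h h'⟩
  obtain ⟨j, hj⟩ := h2 y hy
  obtain ⟨z, hz, hzf⟩ := hj
  obtain ⟨b, j', hb, hj', hz'⟩ := h1 z hzf
  have : j = j' := by
    rw [isOP_iff] at hz hz'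
    rw [hz, opair_inj] at hz'
    exact hz'.2
  subst this
  exact ⟨j, hj', z, hz, hzf⟩

theorem pln_w1 (hctr : CTRStmt) {w : M} (hw : IsW w) :
    _root_.FRU.IsOmegaOne (fun x y : M => E x y) w :=
  ⟨⟨fun y hy => hw.1.1 y hy, fun y hy => hw.1.2 y hy⟩, fun h => hw.2.1 ((hctr M w).1 h),
    fun a ha => (hctr M a).2 (hw.2.2 a ha)⟩

/-- the chosen code of `X` -/
noncomputable def plnS (w L R Γ g X : M) : M := app g (sep L (fun S => X = XX w Γ R S))

theorem plnS_df (w L R Γ g : M) : Fn1 (fun X : M => plnS w L R Γ g X) := by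
  unfold plnS; infer_instance

/-- the real of `X` -/
noncomputable def plnY (w L R Γ g r X : M) : M := sep om (fun i => Rv r (plnS w L R Γ g X) i)

theorem plnY_df (w L R Γ g r : M) : Fn1 (fun X : M => plnY w L R Γ g r X) := by
  unfold plnY plnS; infer_instance

theorem mem_plnY {w L R Γ g r X i : M} : E i (plnY w L R Γ g r X) ↔
    E i om ∧ Rv r (plnS w L R Γ g X) i := by
  unfold plnY
  have : Cl (fun i : M => Rv r (plnS w L R Γ g X) i) := by infer_instance
  rw [mem_sep' this]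

/-- a function on `w` -/
theorem pln_func {w : M} {P : M → M → Prop} (hP : Cl2 P)
    (h : ∀ b, E b w → ∃ n, E n om ∧ P b n ∧ ∀ n', P b n' → n' = n) :
    ∃ v : M, _root_.FRU.IsFunction (fun x y : M => E x y) v w om ∧
      ∀ b n, _root_.FRU.PairIn (fun x y : M => E x y) b n v → E b w ∧ E n om ∧ P b n := by
  have hC : Cl (fun z : M => ∃ b n, z = opair b n ∧ P b n) := by
    have : ∀ {k : ℕ} {t s : (Fin k → M) → M} [DfT t] [DfT s], Df (fun v => P (t v) (s v)) :=
      fun {k} {t s} ht hs => hP.comp2 ht hs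
    infer_instance
  have hm : ∀ b n, _root_.FRU.PairIn (fun x y : M => E x y) b n
      (sep (prod w om) (fun z => ∃ b n, z = opair b n ∧ P b n)) ↔ (E b w ∧ E n om) ∧ P b n := by
    intro b n
    rw [pln_pi, mem_sep' hC, mem_prod]
    refine and_congr_right fun _ => ⟨?_, fun h => ⟨b, n, rfl, h⟩⟩
    rintro ⟨b', n', he, h⟩
    rw [opair_inj] at he
    rw [he.1, he.2]
    exact h
  refine ⟨sep (prod w om) (fun z => ∃ b n, z = opair b n ∧ P b n), ⟨fun z hz => ?_, fun b hb => ?_⟩,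
    fun b n hbn => ?_⟩
  · replace hz : E z (sep (prod w om) (fun z => ∃ b n, z = opair b n ∧ P b n)) := hz
    rw [mem_sep' hC, mem_prod'] at hz
    obtain ⟨⟨a, b, ha, hb, he⟩, _⟩ := hz
    exact ⟨a, b, ha, hb, pln_op.2 he⟩
  · obtain ⟨n, hn, hp, hu⟩ := h b hb
    refine ⟨n, (hm b n).2 ⟨⟨hb, hn⟩, hp⟩, fun n' hn' => hu n' ((hm b n').1 hn').2⟩
  · have := (hm b n).1 hbn
    exact ⟨this.1.1, this.1.2, this.2⟩

end

theorem fru_pln (hacf : ACFStmt) (hctr : CTRStmt) : PLNStmt := by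
  intro M _ _ w L A R h r j Γ hk
  obtain ⟨g, hg⟩ := hacf M L
  have hsp : ∀ X, Sub X w → E (plnS w L R Γ g X) L ∧ X = XX w Γ R (plnS w L R Γ g X) := by
    intro X hX
    obtain ⟨S, hS, hXS⟩ := hk.cod X hX
    have hC : Cl (fun S : M => X = XX w Γ R S) := by infer_instance
    have h1 := hg (sep L (fun S => X = XX w Γ R S)) (fun z hz => ((mem_sep' hC).1 hz).1)
      ⟨S, (mem_sep' hC).2 ⟨hS, hXS⟩⟩
    exact (mem_sep' hC).1 h1
  have hpi : ∀ X y, _root_.FRU.PairIn (fun x y : M => E x y) X y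
      (gr (pow w) (fun X => plnY w L R Γ g r X)) ↔ Sub X w ∧ y = plnY w L R Γ g r X := by
    intro X y
    rw [pln_pi, opair_mem_gr (plnY_df w L R Γ g r), mem_pow]
  refine ⟨w, om, h, gr (pow w) (fun X => plnY w L R Γ g r X), pln_w1 hctr hk.w1, pln_om,
    fun d a n hd ha hn => ?_, fun d n l hd hn hl => ?_, fun X X' y hX hX' hy hy' => ?_,
    fun X hX => ?_⟩
  · obtain ⟨k, F, h1, h2, h3, h4⟩ := hk.hv d a n hd ha hn
    exact ⟨k, F, h1, h2, pln_lv.2 h3, fun k' F' h5 => h4 k' F' (pln_lv.1 h5)⟩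
  · refine ⟨_, pln_fin (hk.hl d n l hd hn hl), fun a k F ha hv hkl => ?_⟩
    have hC : Cl (fun a : M => ∃ k F, Tv h d a n k F ∧ Sub k l) := by infer_instance
    exact (mem_sep' hC).2 ⟨ha, k, F, pln_lv.1 hv, hkl⟩
  · have h1 := ((hpi X y).1 hy).2
    have h2 := ((hpi X' y).1 hy').2
    obtain ⟨hS, hXS⟩ := hsp X hX
    obtain ⟨hS', hXS'⟩ := hsp X' hX'
    have hSS : plnS w L R Γ g X = plnS w L R Γ g X' := by
      by_contra hne
      obtain ⟨i, hi, hn⟩ := hk.rd _ _ hS hS' hne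
      apply hn
      have h3 : E i (plnY w L R Γ g r X) ↔ E i (plnY w L R Γ g r X') := by rw [← h1, ← h2]
      rw [mem_plnY, mem_plnY] at h3
      constructor
      · exact fun h4 => (h3.1 ⟨hi, h4⟩).2
      · exact fun h4 => (h3.2 ⟨hi, h4⟩).2
    rw [hXS, hXS', hSS]
  · obtain ⟨hS, hXS⟩ := hsp X hX
    generalize hSe : plnS w L R Γ g X = S at hS hXS
    obtain ⟨Af, hA1, hA2⟩ := pln_func (w := w) (P := fun b n => Et A S b n) inferInstance
      (fun b hb => hk.At S b hS hb)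
    obtain ⟨jf, hj1, hj2⟩ := pln_func (w := w) (P := fun b n => Jv j S b n) inferInstance
      (fun b hb => hk.Jt S b hS hb)
    refine ⟨plnY w L R Γ g r X, Af, jf, (hpi X _).2 ⟨hX, rfl⟩, fun i hi => (mem_plnY.1 hi).1,
      hA1, hj1, fun d hd => ⟨_, pln_fin (hk.cap S d hS hd), fun a n m k F ha hna hAf hjf hv => ?_⟩⟩
    have hC : Cl (fun a : M => ¬ ∀ n m k F, Et A S a n → Jv j S a m →
        Tv h d a n k F → Sub k m ∨ ∀ i, E i k → (E i F ↔ Rv r S i)) := by infer_instance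
    have h1 : ∀ n m k F, Et A S a n → Jv j S a m →
        Tv h d a n k F → Sub k m ∨ ∀ i, E i k → (E i F ↔ Rv r S i) := by
      by_contra hcon
      exact hna ((mem_sep' hC).2 ⟨ha, hcon⟩)
    obtain ⟨_, hn, hEt⟩ := hA2 a n hAf
    obtain ⟨_, _, hJv⟩ := hj2 a m hjf
    have hTv := pln_lv.1 hv
    rcases h1 n m k F hEt hJv hTv with h2 | h2
    · exact Or.inl h2
    · right
      obtain ⟨k0, F0, hk0, hF0, h3, h4⟩ := hk.hv d a n hd ha hn
      obtain ⟨rfl, rfl⟩ := h4 k F hTv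
      intro i
      show E i F ↔ E i k ∧ E i (plnY w L R Γ g r X)
      rw [mem_plnY, hSe]
      constructor
      · intro hi
        exact ⟨hF0 i hi, Trans_om _ hk0 i (hF0 i hi), (h2 i (hF0 i hi)).1 hi⟩
      · rintro ⟨hi, _, hr⟩
        exact (h2 i hi).2 hr

end SW.FU
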