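import Pool.Agent.H14.FRU.Stmts

/-!
Module TY2: uncountable sets of conditions with the same traces on given finite sets.
-/

set_option linter.unusedVariables false
set_option synthInstance.maxSize 100000

namespace SW.FU

section
variable {M : Type} [SetStr M] [ZF M]

/-- the set of finite subsets -/
noncomputable def ty2f (x : M) : M := sep (pow x) (fun y => Fnt y)

theorem mem_ty2f {x y : M} : E y (ty2f x) ↔ Sub y x ∧ Fnt y := by
  unfold ty2f; rw [mem_sep, mem_pow]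

/-- the type of a condition -/
noncomputable def ty2t (B1 B2 B3 p : M) : M :=
  opair (cn p) (opair (inter (cr p) B1) (opair (inter (cj p) B2) (inter (ct p) B3)))

theorem ty2t_df (B1 B2 B3 : M) : Fn1 (fun p : M => ty2t B1 B2 B3 p) := by
  unfold ty2t; infer_instance

theorem ty2_one {w L A g0 d0 p q : M} (hp : Cn2 w L A p)
    (h : ty2t (prod g0 om) (prod (prod g0 d0) om)
      (prod (prod d0 (prod d0 om)) (prod om (ty2f om))) p =
      ty2t (prod g0 om) (prod (prod g0 d0) om)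
      (prod (prod d0 (prod d0 om)) (prod om (ty2f om))) q) :
    (∀ S i, E S g0 → Rv (cr p) S i → Rv (cr q) S i) ∧
    (∀ S α m, E S g0 → E α d0 → Jv (cj p) S α m → Jv (cj q) S α m) ∧
    ∀ δ α a k F, E δ d0 → E α d0 → Tv (ct p) δ α a k F → Tv (ct q) δ α a k F := by
  unfold ty2t at h
  rw [opair_inj, opair_inj, opair_inj] at h
  obtain ⟨h0, h1, h2, h3⟩ := h
  obtain ⟨_, _, _, pn, ⟨_, p1⟩, ⟨_, p2, _⟩, ⟨_, p3, _⟩, _⟩ := hp
  refine ⟨fun S i hS hr => ?_, fun S α m hS hα hj => ?_, fun δ α a k F hδ hα ht => ?_⟩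
  · unfold Rv at hr ⊢
    obtain ⟨S', i', _, hi, he⟩ := p1 _ hr
    rw [opair_inj] at he
    obtain ⟨rfl, rfl⟩ := he
    have : E (opair S i) (inter (cr p) (prod g0 om)) :=
      mem_inter.2 ⟨hr, mem_prod.2 ⟨hS, Trans_om _ pn _ hi⟩⟩
    rw [h1] at this
    exact (mem_inter.1 this).1
  · unfold Jv at hj ⊢
    obtain ⟨S', α', m', _, _, hm, he⟩ := p2 _ hj
    rw [opair_inj, opair_inj] at he
    obtain ⟨⟨rfl, rfl⟩, rfl⟩ := he
    have : E (opair (opair S α) m) (inter (cj p) (prod (prod g0 d0) om)) :=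
      mem_inter.2 ⟨hj, mem_prod.2 ⟨mem_prod.2 ⟨hS, hα⟩, hm⟩⟩
    rw [h2] at this
    exact (mem_inter.1 this).1
  · unfold Tv at ht ⊢
    obtain ⟨δ', α', a', k', F', _, _, _, ha, hk, hF, he⟩ := p3 _ ht
    rw [opair_inj, opair_inj, opair_inj, opair_inj] at he
    obtain ⟨⟨rfl, rfl, rfl⟩, rfl, rfl⟩ := he
    have hk' : E k om := by
      rw [mem_suc] at hk
      rcases hk with hk | rfl
      · exact Trans_om _ pn _ hk
      · exact pn
    have hF' : E F (ty2f om) := mem_ty2f.2 ⟨hF.trans (Trans_om _ hk'), finF.sub (finF.nat hk') hF⟩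
    have : E (opair (opair δ (opair α a)) (opair k F))
        (inter (ct p) (prod (prod d0 (prod d0 om)) (prod om (ty2f om)))) :=
      mem_inter.2 ⟨ht, mem_prod.2 ⟨mem_prod.2 ⟨hδ, mem_prod.2 ⟨hα, Trans_om _ pn _ ha⟩⟩,
        mem_prod.2 ⟨hk', hF'⟩⟩⟩
    rw [h3] at this
    exact (mem_inter.1 this).1

end

theorem fru_ty2 (hcbt : CBTStmt) : TY2Stmt := by
  intro M _ _ w L U A R V g0 d0 hk hV hVc hg hd
  have cb := hcbt M
  have hB1 : Cb (prod g0 om : M) := cb.prod (cb.fin hg) cb.om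
  have hB2 : Cb (prod (prod g0 d0) om : M) := cb.prod (cb.prod (cb.fin hg) (cb.fin hd)) cb.om
  have hfo : Cb (ty2f (om : M)) := cb.fsub cb.om
  have hB3 : Cb (prod (prod d0 (prod d0 om)) (prod om (ty2f om)) : M) :=
    cb.prod (cb.prod (cb.fin hd) (cb.prod (cb.fin hd) cb.om)) (cb.prod cb.om hfo)
  generalize hb3 : (prod (prod d0 (prod d0 om)) (prod om (ty2f om)) : M) = B3 at hB3
  generalize hb2 : (prod (prod g0 d0) om : M) = B2 at hB2
  generalize hb1 : (prod g0 om : M) = B1 at hB1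
  have hT : Cb (prod om (prod (ty2f B1) (prod (ty2f B2) (ty2f B3))) : M) :=
    cb.prod cb.om (cb.prod (cb.fsub hB1) (cb.prod (cb.fsub hB2) (cb.fsub hB3)))
  have hfib : ∃ t, ¬ Cb (sep V (fun p => ty2t B1 B2 B3 p = t)) := by
    by_contra hcon
    push Not at hcon
    apply hVc
    have hF : Fn1 (fun t : M => sep V (fun p => ty2t B1 B2 B3 p = t)) := by
      unfold ty2t; infer_instance
    refine cb.sub (cb.iUn (fun t : M => sep V (fun p => ty2t B1 B2 B3 p = t)) hF hT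
      fun t _ => hcon t) fun p hp => ?_
    rw [mem_sUn]
    refine ⟨sep V (fun p' => ty2t B1 B2 B3 p' = ty2t B1 B2 B3 p), ?_, ?_⟩
    · rw [mem_img' hF]
      refine ⟨ty2t B1 B2 B3 p, ?_, rfl⟩
      obtain ⟨_, _, _, _, pn, ⟨p1, _⟩, ⟨p2, _⟩, ⟨p3, _⟩, _⟩ := mem_P2.1 (hV p hp)
      unfold ty2t
      rw [mem_prod, mem_prod, mem_prod, mem_ty2f, mem_ty2f, mem_ty2f]
      exact ⟨pn, ⟨fun z hz => (mem_inter.1 hz).2, finF.sub p1 fun z hz => (mem_inter.1 hz).1⟩,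
        ⟨fun z hz => (mem_inter.1 hz).2, finF.sub p2 fun z hz => (mem_inter.1 hz).1⟩,
        ⟨fun z hz => (mem_inter.1 hz).2, finF.sub p3 fun z hz => (mem_inter.1 hz).1⟩⟩
    · have hC : Cl (fun p' : M => ty2t B1 B2 B3 p' = ty2t B1 B2 B3 p) := by
        unfold ty2t; infer_instance
      rw [mem_sep' hC]
      exact ⟨hp, rfl⟩
  obtain ⟨t, ht⟩ := hfib
  have hC : Cl (fun p' : M => ty2t B1 B2 B3 p' = t) := by unfold ty2t; infer_instance
  refine ⟨_, fun p hp => ((mem_sep' hC).1 hp).1, ht, fun p q hp hq => ?_⟩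
  rw [mem_sep' hC] at hp hq
  have he : ty2t B1 B2 B3 p = ty2t B1 B2 B3 q := hp.2.trans hq.2.symm
  subst hb3 hb2 hb1
  obtain ⟨a1, a2, a3⟩ := ty2_one (mem_P2.1 (hV p hp.1)).2 he
  obtain ⟨b1, b2, b3⟩ := ty2_one (mem_P2.1 (hV q hq.1)).2 he.symm
  refine ⟨?_, fun S i hS => ⟨a1 S i hS, b1 S i hS⟩,
    fun S α m hS hα => ⟨a2 S α m hS hα, b2 S α m hS hα⟩,
    fun δ α a k F hδ hα => ⟨a3 δ α a k F hδ hα, b3 δ α a k F hδ hα⟩⟩
  unfold ty2t at he
  exact (opair_inj.1 he).1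

end SW.FU
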