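import Pool.Agent.H14.FRU.TDefs

/-!
Module SRJ: a surjection onto a cube.
-/

open Set Topology Cardinal

namespace FRU

theorem srj_equiv (W : Type) [Infinite W] : Nonempty (W × ℕ ≃ W) := by
  apply Cardinal.eq.1
  rw [Cardinal.mk_prod, Cardinal.lift_id, Cardinal.lift_id, Cardinal.mk_nat]
  exact Cardinal.mul_eq_left (Cardinal.aleph0_le_mk W) (Cardinal.aleph0_le_mk W)
    Cardinal.aleph0_ne_zero

theorem srj_sum : HasSum (fun n : ℕ => ((2 : ℝ) ^ (n + 1))⁻¹) 1 := by
  have h := hasSum_geometric_two' 1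
  have e : (fun n : ℕ => (1 : ℝ) / 2 / 2 ^ n) = fun n : ℕ => ((2 : ℝ) ^ (n + 1))⁻¹ := by
    funext n
    rw [pow_succ]
    field_simp
  rwa [e] at h

/-- the sum of a series of numbers in the unit interval, with binary weights -/
noncomputable def srjS (a : ℕ → ℝ) : ℝ := ∑' n, a n * ((2 : ℝ) ^ (n + 1))⁻¹

theorem srj_summable {a : ℕ → ℝ} (ha : ∀ n, 0 ≤ a n ∧ a n ≤ 1) :
    Summable fun n => a n * ((2 : ℝ) ^ (n + 1))⁻¹ := by
  refine Summable.of_nonneg_of_le (fun n => mul_nonneg (ha n).1 (by positivity)) (fun n => ?_)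
    srj_sum.summable
  exact mul_le_of_le_one_left (by positivity) (ha n).2

theorem srj_mem {a : ℕ → ℝ} (ha : ∀ n, 0 ≤ a n ∧ a n ≤ 1) : srjS a ∈ Set.Icc (0 : ℝ) 1 := by
  refine ⟨tsum_nonneg fun n => mul_nonneg (ha n).1 (by positivity), ?_⟩
  have h := (srj_summable ha).tsum_le_tsum (fun n => mul_le_of_le_one_left
    (show (0 : ℝ) ≤ ((2 : ℝ) ^ (n + 1))⁻¹ by positivity) (ha n).2) srj_sum.summable
  rwa [srj_sum.tsum_eq] at h

theorem fru_srj : SRJStmt := by
  intro W C _ _ P hP h01 hX
  obtain ⟨e⟩ := srj_equiv W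
  refine ⟨fun f w => ⟨srjS fun n => P (e (w, n)) f, srj_mem fun n => h01 _ f⟩, ?_, ?_⟩
  · refine continuous_pi fun w => Continuous.subtype_mk ?_ _
    unfold srjS
    refine continuous_tsum (fun n => (hP _).mul continuous_const) srj_sum.summable
      fun n f => ?_
    rw [Real.norm_eq_abs, abs_of_nonneg (mul_nonneg (h01 _ f).1 (by positivity))]
    exact mul_le_of_le_one_left (by positivity) (h01 _ f).2
  · intro y
    have hy : ∀ w, ∃ d : ℕ → Fin 2, Real.ofDigits d = (y w : ℝ) := fun w => by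
      obtain ⟨d, _, hd⟩ := Real.ofDigits_SurjOn (b := 2) (by norm_num) (y w).2
      exact ⟨d, hd⟩
    choose d hd using hy
    obtain ⟨f, hf⟩ := hX {v | d (e.symm v).1 (e.symm v).2 = 1}
    refine ⟨f, funext fun w => Subtype.ext ?_⟩
    show srjS (fun n => P (e (w, n)) f) = (y w : ℝ)
    rw [← hd w]
    unfold srjS Real.ofDigits Real.ofDigitsTerm
    refine tsum_congr fun n => ?_
    have key : P (e (w, n)) f = ((d w n : ℕ) : ℝ) := by
      by_cases h : d w n = 1
      · rw [(hf (e (w, n))).1 (by simpa using h), h]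
        simp
      · rw [(hf (e (w, n))).2 (by simpa using h)]
        have : d w n = 0 := by
          have := Fin.exists_fin_two.1 ⟨d w n, rfl⟩
          rcases this with h' | h'
          · exact h'
          · exact absurd h' h
        rw [this]
        simp
    show P (e (w, n)) f * _ = _
    rw [key]
    simp

end FRU
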